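import Pool.Agent.W711.HT.Geo
import Pool.Agent.W709.VC.Ang1

/-! A solution of the gluing equations gives the maximum of the volume. -/

set_option autoImplicit false

namespace Pool.Agent.W554.HT

open Finset Pool.Agent.W711.HT
open Pool.Agent.W709.VC (Dv S_TET arg_mem layer)
open scoped Real ComplexConjugate

lemma ang_eq {θ ψ : ℝ} (h : (θ : Real.Angle) = ψ) (h1 : |θ - ψ| < 2 * π) : θ = ψ := by
  obtain ⟨k, hk⟩ := Real.Angle.angle_eq_iff_two_pi_dvd_sub.1 h
  rw [hk, abs_mul, abs_of_pos Real.two_pi_pos] at h1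
  have h2 : |(k : ℝ)| < 1 := by nlinarith [Real.pi_pos]
  have h3 : k = 0 := by
    have : |k| < 1 := by exact_mod_cast h2
    exact Int.abs_lt_one_iff.1 this
  rw [h3] at hk
  simp at hk
  linarith

/-- the angles of a tetrahedron -/
lemma tri {c : ℂ} (hc : 0 < c.im) :
    c ≠ 0 ∧ 1 - c ≠ 0 ∧
    (0 < Complex.arg (1 / (1 - c)) ∧ Complex.arg (1 / (1 - c)) < π) ∧
    (0 < Complex.arg (1 - 1 / c) ∧ Complex.arg (1 - 1 / c) < π) ∧
    (0 < Complex.arg c ∧ Complex.arg c < π) ∧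
    Complex.arg (1 / (1 - c)) + Complex.arg (1 - 1 / c) + Complex.arg c = π ∧
    Dv c = GapVol.lob (Complex.arg (1 / (1 - c))) + GapVol.lob (Complex.arg (1 - 1 / c)) +
      GapVol.lob (Complex.arg c) ∧
    Real.log (2 * Real.sin (Complex.arg (1 / (1 - c)))) -
      Real.log (2 * Real.sin (Complex.arg (1 - 1 / c))) = Real.log ‖c‖ ∧
    Real.log (2 * Real.sin (Complex.arg c)) -
      Real.log (2 * Real.sin (Complex.arg (1 - 1 / c))) = Real.log ‖1 - c‖ := by
  have c0 : c ≠ 0 := by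
    intro h
    rw [h] at hc
    simp at hc
  have c1 : 1 - c ≠ 0 := by
    intro h
    have : c = 1 := by linear_combination -h
    rw [this] at hc
    simp at hc
  have k2 : 0 < (1 / (1 - c)).im := by
    have : (1 / (1 - c)).im = c.im / ‖1 - c‖ ^ 2 := by
      rw [one_div, Complex.inv_im, Complex.normSq_eq_norm_sq]
      simp
    rw [this]
    have : 0 < ‖1 - c‖ := norm_pos_iff.2 c1
    positivity
  have k3 : 0 < (1 - 1 / c).im := by
    have : (1 - 1 / c).im = c.im / ‖c‖ ^ 2 := by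
      rw [Complex.sub_im, one_div, Complex.inv_im, Complex.normSq_eq_norm_sq]
      simp
      ring
    rw [this]
    have : 0 < ‖c‖ := norm_pos_iff.2 c0
    positivity
  have a1 := arg_mem hc
  have a2 := arg_mem k2
  have a3 := arg_mem k3
  have n2 : 1 / (1 - c) ≠ 0 := one_div_ne_zero c1
  have n3 : 1 - 1 / c ≠ 0 := by
    intro h
    rw [h] at k3
    simp at k3
  have hs : Complex.arg (1 / (1 - c)) + Complex.arg (1 - 1 / c) + Complex.arg c = π := by
    apply ang_eq
    · have : (1 / (1 - c)) * (1 - 1 / c) * c = -1 := by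
        field_simp
        ring
      rw [Real.Angle.coe_add, Real.Angle.coe_add, ← Complex.arg_mul_coe_angle n2 n3,
        ← Complex.arg_mul_coe_angle (mul_ne_zero n2 n3) c0, this, Complex.arg_neg_one]
    · rw [abs_lt]
      constructor <;> linarith [a1.1, a1.2, a2.1, a2.2, a3.1, a3.2]
  obtain ⟨_, _, r1, r2, r3⟩ := layer a2.1 a2.2 a3.1 a3.2 a1.1 a1.2
    (Complex.norm_mul_exp_arg_mul_I _).symm (Complex.norm_mul_exp_arg_mul_I _).symm
    (Complex.norm_mul_exp_arg_mul_I _).symm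
  exact ⟨c0, c1, a2, a3, a1, hs, r1, r2, r3⟩

section
variable {n : ℕ} {H : ℕ → Prop} [DecidablePred H] {Q P : ℕ → ℂ} (S : Sol n H Q P)
include S

lemma Q_ne {j : ℕ} (hj : j ≤ n) : Q j ≠ 0 := by
  rcases Nat.eq_zero_or_pos j with h | h
  · rw [h, S.q0]; exact one_ne_zero
  · rcases hj.lt_or_eq with h' | h'
    · intro h0
      have := (S.pos j h h').1
      rw [h0] at this
      simp at this
    · rw [h', S.qn]; exact one_ne_zero

lemma Q_arg {j : ℕ} (hj : j ≤ n) : 0 ≤ Complex.arg (Q j) ∧ Complex.arg (Q j) < π / 2 := by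
  rcases Nat.eq_zero_or_pos j with h | h
  · rw [h, S.q0, Complex.arg_one]
    exact ⟨le_rfl, by positivity⟩
  · rcases hj.lt_or_eq with h' | h'
    · obtain ⟨h1, h2⟩ := S.pos j h h'
      refine ⟨Complex.arg_nonneg_iff.2 h2.le, ?_⟩
      have := Complex.abs_arg_lt_pi_div_two_iff.2 (Or.inl h1)
      exact (abs_lt.1 this).2
    · rw [h', S.qn, Complex.arg_one]
      exact ⟨le_rfl, by positivity⟩

lemma P_ne {j : ℕ} (hj : j < n) : P j ≠ 0 := by
  rcases Nat.eq_zero_or_pos j with h | h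
  · rw [h, S.p0]; exact one_ne_zero
  · by_cases hH : H j
    · rw [(S.hin j h hj hH).1]
      exact inv_ne_zero ((map_ne_zero _).2 (Q_ne S hj.le))
    · rw [(S.non j h hj hH).1]
      exact Q_ne S hj.le

lemma P_arg {j : ℕ} (hj : j < n) :
    (Complex.arg (P j) : Real.Angle) = (Complex.arg (Q j) : Real.Angle) := by
  rcases Nat.eq_zero_or_pos j with h | h
  · rw [h, S.p0, S.q0]
  · by_cases hH : H j
    · rw [(S.hin j h hj hH).1, Complex.arg_inv_coe_angle, Complex.arg_conj_coe_angle, neg_neg]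
    · rw [(S.non j h hj hH).1]

lemma c_im {j : ℕ} (h1 : 1 ≤ j) (hj : j < n) : 0 < (Q j ^ 2).im := by
  obtain ⟨h1, h2⟩ := S.pos j h1 hj
  rw [sq, Complex.mul_im]
  positivity

lemma z_eq {j : ℕ} (h1 : 1 ≤ j) (hj : j < n) :
    Complex.arg (Q j ^ 2) = 2 * Complex.arg (Q j) := by
  have hq := Q_ne S hj.le
  obtain ⟨_, _, _, _, a, _⟩ := tri (c_im S h1 hj)
  have b := Q_arg S hj.le
  apply ang_eq
  · rw [sq, Complex.arg_mul_coe_angle hq hq, two_mul, Real.Angle.coe_add]
  · rw [abs_lt]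
    constructor <;> linarith [a.1, a.2, b.1, b.2]

lemma x_non {j : ℕ} (h1 : 1 ≤ j) (hj : j < n) (hH : ¬H j) :
    Complex.arg (1 / (1 - Q j ^ 2)) = π - Complex.arg (Q (j - 1)) - Complex.arg (Q (j + 1)) := by
  obtain ⟨_, n1, a, _, _, _⟩ := tri (c_im S h1 hj)
  have b1 := Q_arg S (show j - 1 ≤ n by omega)
  have b2 := Q_arg S (show j + 1 ≤ n by omega)
  have m1 := P_ne S (show j - 1 < n by omega)
  have m2 := Q_ne S (show j + 1 ≤ n by omega)
  have hr := (S.non j h1 hj hH).2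
  apply ang_eq
  · have e : 1 / (1 - Q j ^ 2) = (-1) * (P (j - 1) * Q (j + 1))⁻¹ := by
      rw [hr]
      have : 1 - Q j ^ 2 = -(Q j ^ 2 - 1) := by ring
      rw [this, one_div, inv_neg]
      ring
    rw [e, Complex.arg_mul_coe_angle (by simp) (inv_ne_zero (mul_ne_zero m1 m2)),
      Complex.arg_inv_coe_angle, Complex.arg_mul_coe_angle m1 m2, P_arg S (by omega),
      Complex.arg_neg_one, Real.Angle.coe_sub, Real.Angle.coe_sub]
    abel
  · rw [abs_lt]
    constructor <;> linarith [a.1, a.2, b1.1, b1.2, b2.1, b2.2, Real.pi_pos]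

lemma yx_hin {j : ℕ} (h1 : 1 ≤ j) (hj : j < n) (hH : H j) :
    Complex.arg (1 - 1 / Q j ^ 2) - Complex.arg (1 / (1 - Q j ^ 2)) =
      2 * Complex.arg (Q (j - 1)) - 2 * Complex.arg (Q (j + 1)) := by
  obtain ⟨n0, n1, a, b, _, _⟩ := tri (c_im S h1 hj)
  have b1 := Q_arg S (show j - 1 ≤ n by omega)
  have b2 := Q_arg S (show j + 1 ≤ n by omega)
  have m1 := P_ne S (show j - 1 < n by omega)
  have m2 := Q_ne S (show j + 1 ≤ n by omega)
  have m3 : conj (Q (j + 1)) ≠ 0 := (map_ne_zero _).2 m2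
  have hr := (S.hin j h1 hj hH).2
  have n3 : 1 - 1 / Q j ^ 2 ≠ 0 := by
    intro h
    rw [h] at b
    simp at b
  apply ang_eq
  · have e : (1 - 1 / Q j ^ 2) * (1 - Q j ^ 2) =
        (P (j - 1) * P (j - 1)) * (conj (Q (j + 1)) * conj (Q (j + 1))) := by
      have e1 : (1 - 1 / Q j ^ 2) * (1 - Q j ^ 2) = -(Q j ^ 2 - 1) ^ 2 / Q j ^ 2 := by
        generalize Q j ^ 2 = c at n0 ⊢
        field_simp
        ring
      rw [e1, hr, neg_neg, mul_assoc, mul_div_cancel_left₀ _ n0]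
      ring
    have e2 : (Complex.arg (1 / (1 - Q j ^ 2)) : Real.Angle) = -Complex.arg (1 - Q j ^ 2) := by
      rw [one_div, Complex.arg_inv_coe_angle]
    rw [Real.Angle.coe_sub, e2, sub_neg_eq_add, ← Complex.arg_mul_coe_angle n3 n1, e,
      Complex.arg_mul_coe_angle (mul_ne_zero m1 m1) (mul_ne_zero m3 m3),
      Complex.arg_mul_coe_angle m1 m1, Complex.arg_mul_coe_angle m3 m3, P_arg S (by omega),
      Complex.arg_conj_coe_angle, two_mul, two_mul, Real.Angle.coe_sub, Real.Angle.coe_add,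
      Real.Angle.coe_add]
    abel
  · rw [abs_lt]
    constructor <;> linarith [a.1, a.2, b.1, b.2, b1.1, b1.2, b2.1, b2.2, Real.pi_pos]

/-- the maximal angle structure -/
noncomputable def ww (Q : ℕ → ℂ) (j : ℕ) : ℝ := π - 2 * Complex.arg (Q j)

omit S in
lemma ww_def (j : ℕ) : ww Q j = π - 2 * Complex.arg (Q j) := rfl

lemma ang {j : ℕ} (h1 : 1 ≤ j) (hj : j < n) :
    xg H (ww Q) j = Complex.arg (1 / (1 - Q j ^ 2)) ∧
    yg H (ww Q) j = Complex.arg (1 - 1 / Q j ^ 2) ∧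
    π - ww Q j = Complex.arg (Q j ^ 2) := by
  obtain ⟨_, _, _, _, _, hs, _⟩ := tri (c_im S h1 hj)
  have hz := z_eq S h1 hj
  refine ⟨?_, ?_, ?_⟩
  · unfold xg
    by_cases hH : H j
    · have := yx_hin S h1 hj hH
      rw [if_pos hH, ww_def, ww_def, ww_def]
      linarith
    · have := x_non S h1 hj hH
      rw [if_neg hH, ww_def, ww_def]
      linarith
  · unfold yg
    by_cases hH : H j
    · have := yx_hin S h1 hj hH
      rw [if_pos hH, ww_def, ww_def, ww_def]
      linarith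
    · have := x_non S h1 hj hH
      rw [if_neg hH, ww_def, ww_def, ww_def]
      linarith
  · rw [ww_def]
    linarith

lemma nrm {j : ℕ} (h1 : 1 ≤ j) (hj : j < n) :
    (¬H j → Real.log ‖P j‖ = Real.log ‖Q j‖ ∧
      Real.log ‖1 - Q j ^ 2‖ = Real.log ‖P (j - 1)‖ + Real.log ‖Q (j + 1)‖) ∧
    (H j → Real.log ‖P j‖ = -Real.log ‖Q j‖ ∧
      Real.log ‖1 - Q j ^ 2‖ = Real.log ‖Q j‖ + Real.log ‖P (j - 1)‖ + Real.log ‖Q (j + 1)‖) := by
  have m0 : 0 < ‖Q j‖ := norm_pos_iff.2 (Q_ne S hj.le)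
  have m1 : 0 < ‖P (j - 1)‖ := norm_pos_iff.2 (P_ne S (show j - 1 < n by omega))
  have m2 : 0 < ‖Q (j + 1)‖ := norm_pos_iff.2 (Q_ne S (show j + 1 ≤ n by omega))
  constructor
  · intro hH
    obtain ⟨r1, r2⟩ := S.non j h1 hj hH
    refine ⟨by rw [r1], ?_⟩
    have : 1 - Q j ^ 2 = -(P (j - 1) * Q (j + 1)) := by rw [r2]; ring
    rw [this, norm_neg, norm_mul, Real.log_mul m1.ne' m2.ne']
  · intro hH
    obtain ⟨r1, r2⟩ := S.hin j h1 hj hH
    constructor
    · rw [r1, norm_inv, Real.log_inv, RCLike.norm_conj]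
    · have e : ‖1 - Q j ^ 2‖ ^ 2 = (‖Q j‖ * ‖P (j - 1)‖ * ‖Q (j + 1)‖) ^ 2 := by
        have := congrArg norm r2
        rw [norm_pow, norm_neg, norm_mul, norm_mul, norm_pow, norm_pow, norm_pow,
          RCLike.norm_conj, norm_sub_rev] at this
        rw [this]
        ring
      have e2 : ‖1 - Q j ^ 2‖ = ‖Q j‖ * ‖P (j - 1)‖ * ‖Q (j + 1)‖ :=
        (sq_eq_sq₀ (norm_nonneg _) (by positivity)).1 e
      rw [e2, Real.log_mul (by positivity) m2.ne', Real.log_mul m0.ne' m1.ne']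

end

lemma tele (B : ℕ → ℝ) (n : ℕ) (hn : 1 ≤ n) : ∑ j ∈ Ico 1 n, (B j - B (j - 1)) = B (n - 1) - B 0 := by
  induction n, hn using Nat.le_induction with
  | base => simp
  | succ n hn ih =>
    rw [Finset.sum_Ico_succ_top hn, ih]
    have : n + 1 - 1 = n := by omega
    rw [this]
    ring

theorem gmax (hT : S_TET) : S_GMAX := by
  intro n H _ Q P S
  have hn := S.hn
  constructor
  · refine ⟨ww Q, ⟨?_, ?_, ?_⟩, ?_⟩
    · rw [ww_def, S.q0, Complex.arg_one]; ring
    · rw [ww_def, S.qn, Complex.arg_one]; ring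
    · intro j h1 hj
      obtain ⟨e1, e2, e3⟩ := ang S h1 hj
      obtain ⟨_, _, a, b, c, _⟩ := tri (c_im S h1 hj)
      rw [e1, e2, e3]
      exact ⟨a.1, b.1, c.1⟩
    · unfold volG
      apply Finset.sum_congr rfl
      intro j hj
      rw [Finset.mem_Ico] at hj
      obtain ⟨e1, e2, e3⟩ := ang S hj.1 hj.2
      obtain ⟨_, _, _, _, _, _, r, _⟩ := tri (c_im S hj.1 hj.2)
      rw [e1, e2, e3, r]
  · rintro V ⟨w, ⟨hw0, hwn, hw⟩, rfl⟩
    set d : ℕ → ℝ := fun k => w k - ww Q k with hd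
    set B : ℕ → ℝ := fun k => d (k + 1) * Real.log ‖P k‖ - d k * Real.log ‖Q (k + 1)‖ with hB
    have hd0 : d 0 = 0 := by
      simp only [hd]
      rw [hw0, ww_def, S.q0, Complex.arg_one]; ring
    have hdn : d n = 0 := by
      simp only [hd]
      rw [hwn, ww_def, S.qn, Complex.arg_one]; ring
    have B0 : B 0 = 0 := by
      simp only [hB]
      rw [hd0, S.p0]
      simp
    have Bn : B (n - 1) = 0 := by
      simp only [hB]
      rw [show n - 1 + 1 = n by omega, hdn, S.qn]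
      simp
    have T := tele B n (by omega)
    rw [B0, Bn, sub_zero] at T
    have key : ∀ j ∈ Ico 1 n, 2 * (GapVol.lob (xg H w j) + GapVol.lob (yg H w j) +
        GapVol.lob (π - w j)) ≤ 2 * Dv (Q j ^ 2) - 2 * (B j - B (j - 1)) := by
      intro j hj
      rw [Finset.mem_Ico] at hj
      obtain ⟨h1, h2⟩ := hj
      obtain ⟨e1, e2, e3⟩ := ang S h1 h2
      obtain ⟨_, _, a, b, c, hs, r1, r2, r3⟩ := tri (c_im S h1 h2)
      obtain ⟨q1, q2, q3⟩ := hw j h1 h2
      have hs' : xg H w j + yg H w j + (π - w j) = π := by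
        unfold xg yg
        by_cases hH : H j
        · rw [if_pos hH, if_pos hH]; ring
        · rw [if_neg hH, if_neg hH]; ring
      have t := hT _ _ _ _ _ _ a.1 b.1 c.1 hs q1.le q2.le q3.le hs'
      rw [← r1] at t
      have hlc : Real.log ‖Q j ^ 2‖ = 2 * Real.log ‖Q j‖ := by
        rw [norm_pow, Real.log_pow]; norm_num
      rw [hlc] at r2
      set X := Real.log (2 * Real.sin (Complex.arg (1 / (1 - Q j ^ 2)))) with hX
      set Y := Real.log (2 * Real.sin (Complex.arg (1 - 1 / Q j ^ 2))) with hY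
      set Z := Real.log (2 * Real.sin (Complex.arg (Q j ^ 2))) with hZ
      have dz : π - w j - Complex.arg (Q j ^ 2) = -d j := by
        rw [← e3]; simp only [hd]; ring
      have dy : yg H w j - Complex.arg (1 - 1 / Q j ^ 2) =
          -(xg H w j - Complex.arg (1 / (1 - Q j ^ 2))) + d j := by
        linarith
      rw [dy, dz] at t
      have hX' : X = Y + 2 * Real.log ‖Q j‖ := by linarith
      have hZ' : Z = Y + Real.log ‖1 - Q j ^ 2‖ := by linarith
      rw [hX', hZ'] at t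
      have hj1 : j - 1 + 1 = j := by omega
      have fin : (xg H w j - Complex.arg (1 / (1 - Q j ^ 2))) * (2 * Real.log ‖Q j‖) -
          d j * Real.log ‖1 - Q j ^ 2‖ = B j - B (j - 1) := by
        rw [← e1]
        simp only [hB, hj1]
        by_cases hH : H j
        · obtain ⟨s1, s2⟩ := (nrm S h1 h2).2 hH
          rw [s1, s2]
          unfold xg
          rw [if_pos hH, if_pos hH]
          simp only [hd]
          ring
        · obtain ⟨s1, s2⟩ := (nrm S h1 h2).1 hH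
          rw [s1, s2]
          unfold xg
          rw [if_neg hH, if_neg hH]
          simp only [hd]
          ring
      linarith
    have F := Finset.sum_le_sum key
    rw [Finset.sum_sub_distrib, ← Finset.mul_sum (Ico 1 n) (fun j => B j - B (j - 1)) 2, T] at F
    unfold volG
    linarith

end Pool.Agent.W554.HT
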